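import Pool.Agent.H16.Cutoff3

set_option autoImplicit false

open Filter Topology Pool.Agent.H16.Cutoff

namespace Pool.Agent.Results.MP_ee50b4_pr.PeresCycles

/-- There are cycles `ℤ/n_k`, `n_k → ∞`, and (even symmetric) probability measures `μ_k` on them with
ergodic convolution walks such that `T_rel / T_mix(1/2) → 0` but there is no total variation
cutoff. -/
theorem result : ∃ (n : ℕ → ℕ) (_ : ∀ k, NeZero (n k)) (μ : ∀ k, ZMod (n k) → ℝ),
    Tendsto n atTop atTop ∧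
    (∀ k, IsProb (μ k) ∧ Ergodic (μ k) ∧ ∀ x, μ k (-x) = μ k x) ∧
    Tendsto (fun k => Trel (μ k) / (Tmix (μ k) (1 / 2) : ℝ)) atTop (𝓝 0) ∧
    ¬ ∀ ε : ℝ, 0 < ε → ε < 1 / 2 →
      Tendsto (fun k => (Tmix (μ k) ε : ℝ) / (Tmix (μ k) (1 - ε) : ℝ)) atTop (𝓝 1) := by
  choose n hn μ h1 h2 h3 h4 h5 h6 h7 h8 h9 h10 using fun k : ℕ => exists_walk (k + 1) (by omega)
  refine ⟨n, hn, μ, ?_, ?_, ?_, ?_⟩
  · exact tendsto_atTop_mono (fun k => (Nat.le_succ k).trans (h1 k)) tendsto_id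
  · intro k
    refine ⟨h2 k, ?_, h3 k⟩
    intro K a hK
    by_contra hcon
    push Not at hcon
    apply hK
    rw [eq_top_iff]
    intro y _
    have := hcon (y + a) (h4 k _).ne'
    rwa [add_sub_cancel_right] at this
  · have hlim : Tendsto (fun k : ℕ => 2 / ((k : ℝ) + 1)) atTop (𝓝 0) := by
      have := (tendsto_one_div_add_atTop_nhds_zero_nat (𝕜 := ℝ)).const_mul 2
      rw [mul_zero] at this
      refine this.congr fun k => ?_
      rw [mul_one_div]
    apply squeeze_zero _ _ hlim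
    · intro k
      exact div_nonneg (h5 k) (Nat.cast_nonneg _)
    · intro k
      have e1 : ((k : ℝ) + 1) ≤ (Tmix (μ k) (1 / 2) : ℝ) := by
        have := h7 k
        have h' : k + 1 ≤ Tmix (μ k) (1 / 2) := by omega
        exact_mod_cast h'
      exact div_le_div₀ (by norm_num) (h6 k) (by positivity) e1
  · intro hcut
    have h11 := hcut (1 / 4) (by norm_num) (by norm_num)
    have h12 : (1 : ℝ) - 1 / 4 = 3 / 4 := by norm_num
    rw [h12] at h11
    have h13 : ∀ k, (3 / 2 : ℝ) ≤ (Tmix (μ k) (1 / 4) : ℝ) / (Tmix (μ k) (3 / 4) : ℝ) := by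
      intro k
      have e1 : (0 : ℝ) < (Tmix (μ k) (3 / 4) : ℝ) := by
        have := h8 k
        exact_mod_cast this
      rw [le_div_iff₀ e1]
      have e2 : (Tmix (μ k) (3 / 4) : ℝ) ≤ 4 * ((k : ℝ) + 1) := by exact_mod_cast h9 k
      have e3 : 6 * ((k : ℝ) + 1) ≤ (Tmix (μ k) (1 / 4) : ℝ) := by exact_mod_cast h10 k
      linarith
    have := ge_of_tendsto' h11 h13
    norm_num at this

end Pool.Agent.Results.MP_ee50b4_pr.PeresCycles
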